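import Pool.Agent.Helper48.OD.St

set_option autoImplicit false

namespace Pool.Agent.Helper42.OD

open Pool.Agent.Helper43.GD Pool.Agent.Helper48.OD

theorem hFPW : StFPW := by
  intro L _ x n h A _ s h1 hx
  apply h A s h1
  have ht : s.IsTor (x * x) (s.om x * (s.om 1)⁻¹) := by
    have := s.tor_of_weyl h1 hx
    rw [inv_one, mul_one, mul_one] at this
    exact this
  have hp : ∀ k : ℕ, ∃ g, s.IsTor (x ^ (2 * k)) g := by
    intro k
    induction k with
    | zero =>
      refine ⟨1, ?_⟩
      rw [mul_zero, pow_zero]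
      exact s.isTor_one
    | succ k ih =>
      obtain ⟨g, hg⟩ := ih
      refine ⟨g * (s.om x * (s.om 1)⁻¹), ?_⟩
      have := Sys.IsTor.mul s hg ht
      have e : x ^ (2 * (k + 1)) = x ^ (2 * k) * (x * x) := by
        rw [mul_add, pow_add, mul_one, pow_two]
      rw [e]
      exact this
  obtain ⟨g, hg⟩ := hp n
  have := s.weyl_tor hg h1
  rwa [mul_one] at this

end Pool.Agent.Helper42.OD
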